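import Mathlib

set_option autoImplicit false

/-!
# The invariant cone of the banded module: the finite linear part

`Cond` is a list of linear inequalities for the coordinates `E 0, O 0, E 1, O 1, E 2` of a state, relative to
its two conserved quantities; `Hyp` collects all hypotheses of one step.
-/

namespace Pool.Agent.W521.E1

structure Cond (e0 o0 e1 o1 e2 A B Ea : ℝ) : Prop where
  h0 : (1/8)*o0 + (1/4)*e1 + (1/8)*o1 ≤ (269/5000)*A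
  h1 : 1*o0 ≤ (199/1250)*A
  h2 : (-1)*o0 ≤ (433/1000)*A
  h3 : 1*o0 ≤ (73/1000)*B
  h4 : (-1/2)*e0 + (1/2)*e1 ≤ (199/1250)*A
  h5 : (1/2)*e0 + (-1/2)*e1 ≤ (433/1000)*A
  h6 : (-1/2)*e0 + (-3/4)*o0 + (1/4)*o1 ≤ (199/1250)*A
  h7 : (-1/8)*e0 + (-1/2)*o0 + (-1/2)*e1 + (1/8)*e2 ≤ (199/1250)*A
  h8 : (1/8)*e0 + (1/2)*o0 + (1/2)*e1 + (-1/8)*e2 ≤ (173/1250)*A
  h9 : (-1)*e1 ≤ (423/2500)*A
  h10 : (1/4)*e0 + (1/2)*o0 + (-3/8)*o1 ≤ (88/625)*A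
  h11 : 1*o1 ≤ (437/2500)*A
  h12 : (-1)*o1 ≤ (89/500)*A
  h13 : 1*o1 ≤ (489/5000)*B
  h14 : (-1)*o1 ≤ (641/5000)*B
  h15 : (1/2)*e1 + (-1/2)*e2 ≤ (89/500)*A
  h16 : (1/2)*e1 + (-1/2)*e2 ≤ (769/5000)*B
  h17 : (-1/4)*o0 + (1/2)*o1 ≤ (663/5000)*A
  h18 : (1/8)*e0 + (-3/8)*e1 + (1/4)*e2 ≤ (663/5000)*A
  h19 : 1*e2 ≤ (449/2500)*A
  h20 : (-1)*e2 ≤ (89/500)*A
  h21 : 1*Ea ≤ (837/5000)*A
  h22 : (-1)*Ea ≤ (837/5000)*A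
  h23 : (1/2)*e0 ≤ (2501/5000)*A
  h24 : (-1/2)*e0 ≤ (2501/5000)*A
  h25 : 1*e1 ≤ (2501/5000)*A

structure Hyp (r e0 o0 g0 e1 o1 g1 e2 o2 A B Ea Eb B2 Eb2 t : ℝ) : Prop where
  f : Cond e0 o0 e1 o1 e2 A B Ea
  k : Cond (2*r-e0) g0 e1 g1 (-e2) B A Eb
  la1 : (1*r + (3017767/2500000)*e0 + 1*o0 + (517767/1250000)*e1 + (1715729/10000000)*o1 + (355339/5000000)*e2) - A ≤ (503/10000)*t + 1/100000*(A+B)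
  la2 : A - (1*r + (3017767/2500000)*e0 + 1*o0 + (517767/1250000)*e1 + (1715729/10000000)*o1 + (355339/5000000)*e2) ≤ (503/10000)*t + 1/100000*(A+B)
  lb1 : (1*r + (3017767/2500000)*(2*r-e0) + 1*g0 + (517767/1250000)*e1 + (1715729/10000000)*g1 + (355339/5000000)*(-e2)) - B ≤ (503/10000)*t + 1/100000*(A+B)
  lb2 : B - (1*r + (3017767/2500000)*(2*r-e0) + 1*g0 + (517767/1250000)*e1 + (1715729/10000000)*g1 + (355339/5000000)*(-e2)) ≤ (503/10000)*t + 1/100000*(A+B)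
  le1 : (1*g0 + (1/2)*r + (-517767/5000000)*e0 + (107233/1250000)*o0 + (-355339/10000000)*e1 + (73593/5000000)*o1 + (-60967/10000000)*e2) - Ea ≤ (27/6250)*t + 1/100000*(A+B)
  le2 : Ea - (1*g0 + (1/2)*r + (-517767/5000000)*e0 + (107233/1250000)*o0 + (-355339/10000000)*e1 + (73593/5000000)*o1 + (-60967/10000000)*e2) ≤ (27/6250)*t + 1/100000*(A+B)
  lf1 : (1*o0 + (1/2)*r + (-517767/5000000)*(2*r-e0) + (107233/1250000)*g0 + (-355339/10000000)*e1 + (73593/5000000)*g1 + (-60967/10000000)*(-e2)) - Eb ≤ (27/6250)*t + 1/100000*(A+B)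
  lf2 : Eb - (1*o0 + (1/2)*r + (-517767/5000000)*(2*r-e0) + (107233/1250000)*g0 + (-355339/10000000)*e1 + (73593/5000000)*g1 + (-60967/10000000)*(-e2)) ≤ (27/6250)*t + 1/100000*(A+B)
  lc1 : (1*(r+e0/2) + (3017767/2500000)*(2*(r+e0/2)-(e0+o0)) + 1*(-g0-r) + (517767/1250000)*((o1-o0)/2) + (1715729/10000000)*g1 + (355339/5000000)*(-((o2-o1)/2))) - B2 ≤ (503/10000)*t + 1/100000*(A+B)
  lc2 : B2 - (1*(r+e0/2) + (3017767/2500000)*(2*(r+e0/2)-(e0+o0)) + 1*(-g0-r) + (517767/1250000)*((o1-o0)/2) + (1715729/10000000)*g1 + (355339/5000000)*(-((o2-o1)/2))) ≤ (503/10000)*t + 1/100000*(A+B)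
  ld1 : (1*((e1-e0)/2) + (1/2)*(r+e0/2) + (-517767/5000000)*(2*(r+e0/2)-(e0+o0)) + (107233/1250000)*(-g0-r) + (-355339/10000000)*((o1-o0)/2) + (73593/5000000)*g1 + (-60967/10000000)*(-((o2-o1)/2))) - Eb2 ≤ (27/6250)*t + 1/100000*(A+B)
  ld2 : Eb2 - (1*((e1-e0)/2) + (1/2)*(r+e0/2) + (-517767/5000000)*(2*(r+e0/2)-(e0+o0)) + (107233/1250000)*(-g0-r) + (-355339/10000000)*((o1-o0)/2) + (73593/5000000)*g1 + (-60967/10000000)*(-((o2-o1)/2))) ≤ (27/6250)*t + 1/100000*(A+B)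
  ho1 : o2 ≤ t
  ho2 : -o2 ≤ t
  ta : t ≤ (9/50)*A
  tb : t ≤ (9/50)*B
  a0 : 0 ≤ A
  b0 : 0 ≤ B
  t0 : 0 ≤ t

variable {r e0 o0 g0 e1 o1 g1 e2 o2 A B Ea Eb B2 Eb2 t : ℝ}

theorem aux_B2 (h : Hyp r e0 o0 g0 e1 o1 g1 e2 o2 A B Ea Eb B2 Eb2 t) : A ≤ B2 := by
  linarith only [h.k.h3, h.k.h8, h.k.h10, h.f.h14, h.f.h16, h.f.h21, h.k.h21, h.la2, h.lb2, h.le1, h.lf1, h.lc1, h.ho1, h.tb, h.a0, h.b0]

theorem aux_r (h : Hyp r e0 o0 g0 e1 o1 g1 e2 o2 A B Ea Eb B2 Eb2 t) : 0 ≤ r := by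
  linarith only [h.k.h0, h.k.h1, h.k.h4, h.k.h11, h.f.h13, h.k.h20, h.k.h21, h.la2, h.lb2, h.lf1, h.tb, h.a0, h.b0]

theorem stF0 (h : Hyp r e0 o0 g0 e1 o1 g1 e2 o2 A B Ea Eb B2 Eb2 t) :
    (1/8)*((e1-e0)/2) + (1/4)*((o1-o0)/2) + (1/8)*((e2-e1)/2) ≤ (269/5000)*A := by
  have hb := aux_B2 h
  linarith only [h.f.h6, h.f.h11, h.f.h17, h.f.h19, h.a0, h.b0, hb]

theorem stF1 (h : Hyp r e0 o0 g0 e1 o1 g1 e2 o2 A B Ea Eb B2 Eb2 t) :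
    1*((e1-e0)/2) ≤ (199/1250)*A := by
  have hb := aux_B2 h
  linarith only [h.f.h4, h.a0, h.b0, hb]

theorem stF2 (h : Hyp r e0 o0 g0 e1 o1 g1 e2 o2 A B Ea Eb B2 Eb2 t) :
    (-1)*((e1-e0)/2) ≤ (433/1000)*A := by
  have hb := aux_B2 h
  linarith only [h.f.h5, h.a0, h.b0, hb]

theorem stF3 (h : Hyp r e0 o0 g0 e1 o1 g1 e2 o2 A B Ea Eb B2 Eb2 t) :
    1*((e1-e0)/2) ≤ (73/1000)*B2 := by
  have hb := aux_B2 h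
  linarith only [h.f.h0, h.f.h1, h.f.h4, h.f.h8, h.k.h14, h.k.h16, h.f.h21, h.la2, h.lb2, h.le1, h.lc1, h.ho1, h.ta, h.a0, h.b0, hb]

theorem stF4 (h : Hyp r e0 o0 g0 e1 o1 g1 e2 o2 A B Ea Eb B2 Eb2 t) :
    (-1/2)*(e0+o0) + (1/2)*((o1-o0)/2) ≤ (199/1250)*A := by
  have hb := aux_B2 h
  linarith only [h.f.h6, h.a0, h.b0, hb]

theorem stF5 (h : Hyp r e0 o0 g0 e1 o1 g1 e2 o2 A B Ea Eb B2 Eb2 t) :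
    (1/2)*(e0+o0) + (-1/2)*((o1-o0)/2) ≤ (433/1000)*A := by
  have hb := aux_B2 h
  linarith only [h.k.h9, h.f.h10, h.k.h11, h.f.h14, h.k.h19, h.f.h21, h.k.h21, h.la1, h.lb2, h.le1, h.lf1, h.tb, h.a0, h.b0, hb]

theorem stF6 (h : Hyp r e0 o0 g0 e1 o1 g1 e2 o2 A B Ea Eb B2 Eb2 t) :
    (-1/2)*(e0+o0) + (-3/4)*((e1-e0)/2) + (1/4)*((e2-e1)/2) ≤ (199/1250)*A := by
  have hb := aux_B2 h
  linarith only [h.f.h7, h.a0, h.b0, hb]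

theorem stF7 (h : Hyp r e0 o0 g0 e1 o1 g1 e2 o2 A B Ea Eb B2 Eb2 t) :
    (-1/8)*(e0+o0) + (-1/2)*((e1-e0)/2) + (-1/2)*((o1-o0)/2) + (1/8)*((o2-o1)/2) ≤ (199/1250)*A := by
  have hb := aux_B2 h
  linarith only [h.f.h9, h.f.h10, h.f.h12, h.k.h13, h.f.h14, h.k.h18, h.f.h21, h.la1, h.lb2, h.le1, h.ho1, h.ta, h.a0, h.b0, hb]

theorem stF8 (h : Hyp r e0 o0 g0 e1 o1 g1 e2 o2 A B Ea Eb B2 Eb2 t) :
    (1/8)*(e0+o0) + (1/2)*((e1-e0)/2) + (1/2)*((o1-o0)/2) + (-1/8)*((o2-o1)/2) ≤ (173/1250)*A := by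
  have hb := aux_B2 h
  linarith only [h.f.h0, h.f.h6, h.f.h17, h.ho2, h.ta, h.a0, h.b0, hb]

theorem stF9 (h : Hyp r e0 o0 g0 e1 o1 g1 e2 o2 A B Ea Eb B2 Eb2 t) :
    (-1)*((o1-o0)/2) ≤ (423/2500)*A := by
  have hb := aux_B2 h
  linarith only [h.f.h1, h.f.h12, h.a0, h.b0, hb]

theorem stF10 (h : Hyp r e0 o0 g0 e1 o1 g1 e2 o2 A B Ea Eb B2 Eb2 t) :
    (1/4)*(e0+o0) + (1/2)*((e1-e0)/2) + (-3/8)*((e2-e1)/2) ≤ (88/625)*A := by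
  have hb := aux_B2 h
  linarith only [h.f.h4, h.f.h8, h.f.h15, h.a0, h.b0, hb]

theorem stF11 (h : Hyp r e0 o0 g0 e1 o1 g1 e2 o2 A B Ea Eb B2 Eb2 t) :
    1*((e2-e1)/2) ≤ (437/2500)*A := by
  have hb := aux_B2 h
  linarith only [h.f.h9, h.f.h19, h.a0, h.b0, hb]

theorem stF12 (h : Hyp r e0 o0 g0 e1 o1 g1 e2 o2 A B Ea Eb B2 Eb2 t) :
    (-1)*((e2-e1)/2) ≤ (89/500)*A := by
  have hb := aux_B2 h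
  linarith only [h.f.h15, h.a0, h.b0, hb]

theorem stF13 (h : Hyp r e0 o0 g0 e1 o1 g1 e2 o2 A B Ea Eb B2 Eb2 t) :
    1*((e2-e1)/2) ≤ (489/5000)*B2 := by
  have hb := aux_B2 h
  linarith only [h.f.h9, h.f.h11, h.k.h14, h.f.h18, h.f.h19, h.f.h21, h.k.h21, h.la2, h.lb2, h.le1, h.lf1, h.lc1, h.ho1, h.ta, h.a0, h.b0, hb]

theorem stF14 (h : Hyp r e0 o0 g0 e1 o1 g1 e2 o2 A B Ea Eb B2 Eb2 t) :
    (-1)*((e2-e1)/2) ≤ (641/5000)*B2 := by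
  have hb := aux_B2 h
  linarith only [h.f.h8, h.k.h10, h.f.h14, h.f.h15, h.f.h16, h.f.h20, h.f.h21, h.la2, h.lb2, h.le1, h.lc1, h.ho1, h.ta, h.a0, h.b0, hb]

theorem stF15 (h : Hyp r e0 o0 g0 e1 o1 g1 e2 o2 A B Ea Eb B2 Eb2 t) :
    (1/2)*((o1-o0)/2) + (-1/2)*((o2-o1)/2) ≤ (89/500)*A := by
  have hb := aux_B2 h
  linarith only [h.f.h17, h.ho2, h.ta, h.a0, h.b0, hb]

theorem stF16 (h : Hyp r e0 o0 g0 e1 o1 g1 e2 o2 A B Ea Eb B2 Eb2 t) :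
    (1/2)*((o1-o0)/2) + (-1/2)*((o2-o1)/2) ≤ (769/5000)*B2 := by
  have hb := aux_B2 h
  linarith only [h.k.h8, h.k.h10, h.f.h13, h.f.h16, h.f.h17, h.f.h21, h.la2, h.lb2, h.le1, h.lc1, h.ho2, h.ta, h.tb, h.a0, h.b0, hb]

theorem stF17 (h : Hyp r e0 o0 g0 e1 o1 g1 e2 o2 A B Ea Eb B2 Eb2 t) :
    (-1/4)*((e1-e0)/2) + (1/2)*((e2-e1)/2) ≤ (663/5000)*A := by
  have hb := aux_B2 h
  linarith only [h.f.h18, h.a0, h.b0, hb]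

theorem stF18 (h : Hyp r e0 o0 g0 e1 o1 g1 e2 o2 A B Ea Eb B2 Eb2 t) :
    (1/8)*(e0+o0) + (-3/8)*((o1-o0)/2) + (1/4)*((o2-o1)/2) ≤ (663/5000)*A := by
  have hb := aux_B2 h
  linarith only [h.f.h1, h.f.h10, h.f.h12, h.ho1, h.ta, h.a0, h.b0, hb]

theorem stF19 (h : Hyp r e0 o0 g0 e1 o1 g1 e2 o2 A B Ea Eb B2 Eb2 t) :
    1*((o2-o1)/2) ≤ (449/2500)*A := by
  have hb := aux_B2 h
  linarith only [h.f.h12, h.ho1, h.ta, h.a0, h.b0, hb]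

theorem stF20 (h : Hyp r e0 o0 g0 e1 o1 g1 e2 o2 A B Ea Eb B2 Eb2 t) :
    (-1)*((o2-o1)/2) ≤ (89/500)*A := by
  have hb := aux_B2 h
  linarith only [h.f.h11, h.ho2, h.ta, h.a0, h.b0, hb]

theorem stF21 (h : Hyp r e0 o0 g0 e1 o1 g1 e2 o2 A B Ea Eb B2 Eb2 t) :
    1*(-Ea) ≤ (837/5000)*A := by
  have hb := aux_B2 h
  linarith only [h.f.h22, h.a0, h.b0, hb]

theorem stF22 (h : Hyp r e0 o0 g0 e1 o1 g1 e2 o2 A B Ea Eb B2 Eb2 t) :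
    (-1)*(-Ea) ≤ (837/5000)*A := by
  have hb := aux_B2 h
  linarith only [h.f.h21, h.a0, h.b0, hb]

theorem stF23 (h : Hyp r e0 o0 g0 e1 o1 g1 e2 o2 A B Ea Eb B2 Eb2 t) :
    (1/2)*(e0+o0) ≤ (2501/5000)*A := by
  have hb := aux_B2 h
  linarith only [h.k.h1, h.k.h4, h.k.h6, h.k.h9, h.f.h14, h.k.h19, h.k.h21, h.la1, h.lb2, h.lf1, h.tb, h.a0, h.b0, hb]

theorem stF24 (h : Hyp r e0 o0 g0 e1 o1 g1 e2 o2 A B Ea Eb B2 Eb2 t) :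
    (-1/2)*(e0+o0) ≤ (2501/5000)*A := by
  have hb := aux_B2 h
  linarith only [h.f.h4, h.f.h6, h.f.h9, h.f.h12, h.a0, h.b0, hb]

theorem stF25 (h : Hyp r e0 o0 g0 e1 o1 g1 e2 o2 A B Ea Eb B2 Eb2 t) :
    1*((o1-o0)/2) ≤ (2501/5000)*A := by
  have hb := aux_B2 h
  linarith only [h.f.h2, h.f.h17, h.a0, h.b0, hb]

theorem stK0 (h : Hyp r e0 o0 g0 e1 o1 g1 e2 o2 A B Ea Eb B2 Eb2 t) :
    (1/8)*(-g0-r) + (1/4)*((o1-o0)/2) + (1/8)*g1 ≤ (269/5000)*B2 := by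
  have hb := aux_B2 h
  linarith only [h.f.h13, h.k.h13, h.f.h16, h.k.h16, h.f.h17, h.k.h17, h.f.h22, h.la2, h.lb2, h.le2, h.lc1, h.ho1, h.ta, h.a0, h.b0, hb]

theorem stK1 (h : Hyp r e0 o0 g0 e1 o1 g1 e2 o2 A B Ea Eb B2 Eb2 t) :
    1*(-g0-r) ≤ (199/1250)*B2 := by
  have hb := aux_B2 h
  linarith only [h.f.h0, h.k.h2, h.f.h8, h.f.h13, h.k.h17, h.k.h21, h.f.h22, h.la2, h.lb2, h.le2, h.lf1, h.lc2, h.ho2, h.tb, h.a0, h.b0, hb]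

theorem stK2 (h : Hyp r e0 o0 g0 e1 o1 g1 e2 o2 A B Ea Eb B2 Eb2 t) :
    (-1)*(-g0-r) ≤ (433/1000)*B2 := by
  have hb := aux_B2 h
  linarith only [h.f.h8, h.k.h8, h.f.h10, h.k.h10, h.f.h16, h.f.h21, h.k.h21, h.la2, h.lb2, h.le1, h.lf1, h.lc1, h.ho1, h.tb, h.a0, h.b0, hb]

theorem stK3 (h : Hyp r e0 o0 g0 e1 o1 g1 e2 o2 A B Ea Eb B2 Eb2 t) :
    1*(-g0-r) ≤ (73/1000)*A := by
  have hb := aux_B2 h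
  linarith only [h.f.h0, h.k.h2, h.f.h8, h.k.h15, h.k.h17, h.k.h21, h.f.h22, h.la2, h.lb2, h.le2, h.lf1, h.tb, h.a0, h.b0, hb]

theorem stK4 (h : Hyp r e0 o0 g0 e1 o1 g1 e2 o2 A B Ea Eb B2 Eb2 t) :
    (-1/2)*(2*(r+e0/2)-(e0+o0)) + (1/2)*((o1-o0)/2) ≤ (199/1250)*B2 := by
  have hb := aux_B2 h
  linarith only [h.k.h2, h.f.h13, h.k.h15, h.f.h16, h.k.h17, h.f.h22, h.k.h22, h.la2, h.lb2, h.le2, h.lf2, h.lc2, h.ho2, h.tb, h.a0, h.b0, hb]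

theorem stK5 (h : Hyp r e0 o0 g0 e1 o1 g1 e2 o2 A B Ea Eb B2 Eb2 t) :
    (1/2)*(2*(r+e0/2)-(e0+o0)) + (-1/2)*((o1-o0)/2) ≤ (433/1000)*B2 := by
  have hb := aux_B2 h
  linarith only [h.f.h1, h.f.h8, h.f.h10, h.f.h12, h.k.h14, h.k.h16, h.f.h21, h.la2, h.lb2, h.le1, h.lc1, h.ho1, h.ta, h.a0, h.b0, hb]

theorem stK6 (h : Hyp r e0 o0 g0 e1 o1 g1 e2 o2 A B Ea Eb B2 Eb2 t) :
    (-1/2)*(2*(r+e0/2)-(e0+o0)) + (-3/4)*(-g0-r) + (1/4)*g1 ≤ (199/1250)*B2 := by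
  have hb := aux_B2 h
  linarith only [h.k.h0, h.k.h3, h.k.h11, h.f.h13, h.k.h19, h.f.h21, h.k.h21, h.la2, h.lb2, h.le1, h.lf1, h.lc2, h.ho2, h.tb, h.a0, h.b0, hb]

theorem stK7 (h : Hyp r e0 o0 g0 e1 o1 g1 e2 o2 A B Ea Eb B2 Eb2 t) :
    (-1/8)*(2*(r+e0/2)-(e0+o0)) + (-1/2)*(-g0-r) + (-1/2)*((o1-o0)/2) + (1/8)*(-((o2-o1)/2)) ≤ (199/1250)*B2 := by
  have hb := aux_B2 h
  linarith only [h.f.h8, h.k.h8, h.f.h10, h.k.h10, h.k.h16, h.f.h21, h.k.h21, h.la2, h.lb2, h.le1, h.lf1, h.lc1, h.ho2, h.ta, h.a0, h.b0, hb]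

theorem stK8 (h : Hyp r e0 o0 g0 e1 o1 g1 e2 o2 A B Ea Eb B2 Eb2 t) :
    (1/8)*(2*(r+e0/2)-(e0+o0)) + (1/2)*(-g0-r) + (1/2)*((o1-o0)/2) + (-1/8)*(-((o2-o1)/2)) ≤ (173/1250)*B2 := by
  have hb := aux_B2 h
  linarith only [h.f.h13, h.k.h14, h.f.h16, h.k.h16, h.f.h17, h.f.h22, h.k.h22, h.la2, h.lb2, h.le2, h.lf2, h.lc1, h.ho1, h.tb, h.a0, h.b0, hb]

theorem stK9 (h : Hyp r e0 o0 g0 e1 o1 g1 e2 o2 A B Ea Eb B2 Eb2 t) :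
    (-1)*((o1-o0)/2) ≤ (423/2500)*B2 := by
  have hb := aux_B2 h
  linarith only [h.f.h1, h.f.h8, h.f.h10, h.f.h12, h.k.h14, h.k.h16, h.f.h21, h.la2, h.lb2, h.le1, h.lc1, h.ho1, h.ta, h.a0, h.b0, hb]

theorem stK10 (h : Hyp r e0 o0 g0 e1 o1 g1 e2 o2 A B Ea Eb B2 Eb2 t) :
    (1/4)*(2*(r+e0/2)-(e0+o0)) + (1/2)*(-g0-r) + (-3/8)*g1 ≤ (88/625)*B2 := by
  have hb := aux_B2 h
  linarith only [h.f.h8, h.f.h14, h.k.h14, h.k.h15, h.k.h16, h.k.h21, h.f.h22, h.la2, h.lb2, h.le2, h.lf1, h.lc1, h.ho1, h.tb, h.a0, h.b0, hb]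

theorem stK11 (h : Hyp r e0 o0 g0 e1 o1 g1 e2 o2 A B Ea Eb B2 Eb2 t) :
    1*g1 ≤ (437/2500)*B2 := by
  have hb := aux_B2 h
  linarith only [h.k.h0, h.k.h11, h.k.h13, h.f.h14, h.k.h20, h.f.h21, h.k.h21, h.la2, h.lb2, h.le1, h.lf1, h.lc1, h.ho1, h.tb, h.a0, h.b0, hb]

theorem stK12 (h : Hyp r e0 o0 g0 e1 o1 g1 e2 o2 A B Ea Eb B2 Eb2 t) :
    (-1)*g1 ≤ (89/500)*B2 := by
  have hb := aux_B2 h
  linarith only [h.k.h8, h.f.h10, h.k.h10, h.k.h12, h.k.h14, h.f.h16, h.k.h21, h.la2, h.lb2, h.lf1, h.lc1, h.ho1, h.tb, h.a0, h.b0, hb]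

theorem stK13 (h : Hyp r e0 o0 g0 e1 o1 g1 e2 o2 A B Ea Eb B2 Eb2 t) :
    1*g1 ≤ (489/5000)*A := by
  have hb := aux_B2 h
  linarith only [h.k.h13, h.a0, h.b0, hb]

theorem stK14 (h : Hyp r e0 o0 g0 e1 o1 g1 e2 o2 A B Ea Eb B2 Eb2 t) :
    (-1)*g1 ≤ (641/5000)*A := by
  have hb := aux_B2 h
  linarith only [h.k.h14, h.a0, h.b0, hb]

theorem stK15 (h : Hyp r e0 o0 g0 e1 o1 g1 e2 o2 A B Ea Eb B2 Eb2 t) :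
    (1/2)*((o1-o0)/2) + (-1/2)*(-((o2-o1)/2)) ≤ (89/500)*B2 := by
  have hb := aux_B2 h
  linarith only [h.k.h8, h.k.h10, h.f.h14, h.f.h16, h.f.h21, h.k.h22, h.la2, h.lb2, h.le1, h.lf2, h.lc1, h.ho1, h.ta, h.tb, h.a0, h.b0, hb]

theorem stK16 (h : Hyp r e0 o0 g0 e1 o1 g1 e2 o2 A B Ea Eb B2 Eb2 t) :
    (1/2)*((o1-o0)/2) + (-1/2)*(-((o2-o1)/2)) ≤ (769/5000)*A := by
  have hb := aux_B2 h
  linarith only [h.f.h2, h.ho1, h.ta, h.a0, h.b0, hb]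

theorem stK17 (h : Hyp r e0 o0 g0 e1 o1 g1 e2 o2 A B Ea Eb B2 Eb2 t) :
    (-1/4)*(-g0-r) + (1/2)*g1 ≤ (663/5000)*B2 := by
  have hb := aux_B2 h
  linarith only [h.k.h0, h.k.h8, h.f.h10, h.k.h13, h.f.h21, h.k.h21, h.la2, h.lb2, h.le1, h.lf1, h.lc1, h.ho1, h.ta, h.tb, h.a0, h.b0, hb]

theorem stK18 (h : Hyp r e0 o0 g0 e1 o1 g1 e2 o2 A B Ea Eb B2 Eb2 t) :
    (1/8)*(2*(r+e0/2)-(e0+o0)) + (-3/8)*((o1-o0)/2) + (1/4)*(-((o2-o1)/2)) ≤ (663/5000)*B2 := by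
  have hb := aux_B2 h
  linarith only [h.f.h1, h.f.h3, h.f.h8, h.f.h10, h.k.h14, h.k.h16, h.f.h21, h.la2, h.lb2, h.le1, h.lc1, h.ho2, h.ta, h.a0, h.b0, hb]

theorem stK19 (h : Hyp r e0 o0 g0 e1 o1 g1 e2 o2 A B Ea Eb B2 Eb2 t) :
    1*(-((o2-o1)/2)) ≤ (449/2500)*B2 := by
  have hb := aux_B2 h
  linarith only [h.f.h0, h.k.h8, h.k.h10, h.f.h13, h.f.h21, h.k.h21, h.la2, h.lb2, h.le1, h.lf1, h.lc1, h.ho2, h.ta, h.tb, h.a0, h.b0, hb]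

theorem stK20 (h : Hyp r e0 o0 g0 e1 o1 g1 e2 o2 A B Ea Eb B2 Eb2 t) :
    (-1)*(-((o2-o1)/2)) ≤ (89/500)*B2 := by
  have hb := aux_B2 h
  linarith only [h.f.h8, h.k.h8, h.f.h10, h.k.h10, h.f.h14, h.k.h16, h.f.h21, h.la2, h.lb2, h.le1, h.lc1, h.ho1, h.ta, h.a0, h.b0, hb]

theorem stK21 (h : Hyp r e0 o0 g0 e1 o1 g1 e2 o2 A B Ea Eb B2 Eb2 t) :
    1*Eb2 ≤ (837/5000)*B2 := by
  have hb := aux_B2 h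
  linarith only [h.f.h1, h.f.h4, h.f.h8, h.f.h12, h.k.h14, h.k.h16, h.f.h21, h.la2, h.lb2, h.le1, h.lc1, h.ld2, h.ho1, h.ta, h.a0, h.b0, hb]

theorem stK22 (h : Hyp r e0 o0 g0 e1 o1 g1 e2 o2 A B Ea Eb B2 Eb2 t) :
    (-1)*Eb2 ≤ (837/5000)*B2 := by
  have hb := aux_B2 h
  linarith only [h.k.h1, h.k.h4, h.k.h9, h.k.h12, h.f.h14, h.k.h19, h.k.h21, h.la2, h.lb2, h.lf1, h.lc1, h.ld1, h.ho1, h.tb, h.a0, h.b0, hb]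

theorem stK23 (h : Hyp r e0 o0 g0 e1 o1 g1 e2 o2 A B Ea Eb B2 Eb2 t) :
    (1/2)*(2*(r+e0/2)-(e0+o0)) ≤ (2501/5000)*B2 := by
  have hb := aux_B2 h
  linarith only [h.f.h1, h.f.h4, h.f.h8, h.f.h12, h.k.h14, h.k.h16, h.f.h21, h.la2, h.lb2, h.le1, h.lc1, h.ho1, h.ta, h.a0, h.b0, hb]

theorem stK24 (h : Hyp r e0 o0 g0 e1 o1 g1 e2 o2 A B Ea Eb B2 Eb2 t) :
    (-1/2)*(2*(r+e0/2)-(e0+o0)) ≤ (2501/5000)*B2 := by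
  have hb := aux_B2 h
  linarith only [h.k.h2, h.f.h8, h.f.h13, h.k.h15, h.f.h16, h.k.h17, h.k.h21, h.la2, h.lb2, h.lf1, h.lc2, h.ho2, h.tb, h.a0, h.b0, hb]

theorem stK25 (h : Hyp r e0 o0 g0 e1 o1 g1 e2 o2 A B Ea Eb B2 Eb2 t) :
    1*((o1-o0)/2) ≤ (2501/5000)*B2 := by
  have hb := aux_B2 h
  linarith only [h.k.h8, h.k.h10, h.f.h13, h.f.h16, h.f.h17, h.f.h21, h.k.h22, h.la2, h.lb2, h.le1, h.lf2, h.lc1, h.ho1, h.tb, h.a0, h.b0, hb]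

theorem cond_F (h : Hyp r e0 o0 g0 e1 o1 g1 e2 o2 A B Ea Eb B2 Eb2 t) :
    Cond (e0+o0) ((e1-e0)/2) ((o1-o0)/2) ((e2-e1)/2) ((o2-o1)/2) A B2 (-Ea) :=
  ⟨stF0 h, stF1 h, stF2 h, stF3 h, stF4 h, stF5 h, stF6 h, stF7 h, stF8 h, stF9 h, stF10 h, stF11 h, stF12 h, stF13 h, stF14 h, stF15 h, stF16 h, stF17 h, stF18 h, stF19 h, stF20 h, stF21 h, stF22 h, stF23 h, stF24 h, stF25 h⟩

theorem cond_K (h : Hyp r e0 o0 g0 e1 o1 g1 e2 o2 A B Ea Eb B2 Eb2 t) :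
    Cond (2*(r+e0/2)-(e0+o0)) (-g0-r) ((o1-o0)/2) g1 (-((o2-o1)/2)) B2 A Eb2 :=
  ⟨stK0 h, stK1 h, stK2 h, stK3 h, stK4 h, stK5 h, stK6 h, stK7 h, stK8 h, stK9 h, stK10 h, stK11 h, stK12 h, stK13 h, stK14 h, stK15 h, stK16 h, stK17 h, stK18 h, stK19 h, stK20 h, stK21 h, stK22 h, stK23 h, stK24 h, stK25 h⟩

end Pool.Agent.W521.E1
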