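import Mathlib
import Pool.Agent.W817.E1.Def

set_option autoImplicit false

/-!
# The two conserved quantities of the transition `A`
-/

namespace Pool.Agent.W521.E1

open Pool.Agent.W817.E1

/-- `q ^ 2` for `q = √2 - 1`. -/
noncomputable def qq : ℝ := 3 - 2 * √2

theorem s2 : √2 * √2 = (2 : ℝ) := Real.mul_self_sqrt (by norm_num)

theorem s_lo : (1.41421356 : ℝ) < √2 := by
  rw [show (1.41421356 : ℝ) = √(1.41421356 ^ 2) from (Real.sqrt_sq (by norm_num)).symm]
  exact Real.sqrt_lt_sqrt (by norm_num) (by norm_num)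

theorem s_hi : √2 < (1.41421357 : ℝ) := by
  rw [show (1.41421357 : ℝ) = √(1.41421357 ^ 2) from (Real.sqrt_sq (by norm_num)).symm]
  exact Real.sqrt_lt_sqrt (by norm_num) (by norm_num)

theorem qq_pos : 0 < qq := by unfold qq; linarith [s_hi]

theorem qq_lt : qq < 1 := by unfold qq; linarith [s_lo]

/-- Bounded states. -/
def Bdd (s : St) : Prop := ∃ C : ℝ, ∀ i, |s i| ≤ C

theorem Bdd.A {s : St} (h : Bdd s) : Bdd (A s) := by
  obtain ⟨C, hC⟩ := h
  refine ⟨2 * C, fun i => ?_⟩
  have h0 : 0 ≤ C := (abs_nonneg _).trans (hC .r)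
  have hh : ∀ i, -C ≤ s i ∧ s i ≤ C := fun i => abs_le.1 (hC i)
  rw [abs_le]
  rcases i with _ | k | k | k
  · simp only [W817.E1.A]
    constructor <;> linarith [hh .r, hh (.E 0), (hh .r).1, (hh .r).2, (hh (.E 0)).1, (hh (.E 0)).2]
  · cases k with
    | zero =>
      simp only [W817.E1.A]
      constructor <;> linarith [(hh (.E 0)).1, (hh (.E 0)).2, (hh (.O 0)).1, (hh (.O 0)).2]
    | succ k =>
      simp only [W817.E1.A]
      constructor <;> linarith [(hh (.O (k+1))).1, (hh (.O (k+1))).2, (hh (.O k)).1, (hh (.O k)).2]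
  · simp only [W817.E1.A]
    constructor <;> linarith [(hh (.E (k+1))).1, (hh (.E (k+1))).2, (hh (.E k)).1, (hh (.E k)).2]
  · cases k with
    | zero =>
      simp only [W817.E1.A]
      constructor <;> linarith [(hh (.G 0)).1, (hh (.G 0)).2, (hh .r).1, (hh .r).2]
    | succ k =>
      have : |W817.E1.A s (.G (k+1))| ≤ C := by
        simp only [W817.E1.A]
        rw [abs_mul, abs_pow]
        simpa using hC (.G (k+1))
      have := abs_le.1 this
      constructor <;> linarith [this.1, this.2]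

theorem Bdd.T {s : St} (h : Bdd s) : Bdd (T s) := by
  obtain ⟨C, hC⟩ := h
  refine ⟨3 * C, fun i => ?_⟩
  have h0 : 0 ≤ C := (abs_nonneg _).trans (hC .r)
  have hh : ∀ i, -C ≤ s i ∧ s i ≤ C := fun i => abs_le.1 (hC i)
  rcases i with _ | k | k | k
  · simp only [W817.E1.T]; linarith [hC .r]
  · cases k with
    | zero =>
      simp only [W817.E1.T]
      rw [abs_le]
      constructor <;> linarith [(hh (.E 0)).1, (hh (.E 0)).2, (hh .r).1, (hh .r).2]
    | succ k =>
      simp only [W817.E1.T]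
      rw [abs_mul, abs_pow]
      simp only [abs_neg, abs_one, one_pow, one_mul]
      linarith [hC (.E (k+1))]
  · simp only [W817.E1.T]; linarith [hC (.G k)]
  · simp only [W817.E1.T]; linarith [hC (.O k)]

theorem T_T (s : St) : T (T s) = s := by
  funext i
  rcases i with _ | k | k | k
  · rfl
  · cases k with
    | zero => simp only [T]; ring
    | succ k =>
      simp only [T]
      rw [← mul_assoc, ← mul_pow]
      norm_num
  · rfl
  · rfl

theorem summ {u : ℕ → ℝ} {C : ℝ} (h : ∀ k, |u k| ≤ C) : Summable fun k => qq ^ k * u k := by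
  refine Summable.of_norm_bounded (g := fun k => C * qq ^ k)
    ((summable_geometric_of_lt_one qq_pos.le qq_lt).mul_left C) (fun k => ?_)
  rw [Real.norm_eq_abs, abs_mul, abs_of_nonneg (pow_nonneg qq_pos.le k), mul_comm]
  exact mul_le_mul_of_nonneg_right (h k) (pow_nonneg qq_pos.le k)

theorem tsum_shift {u : ℕ → ℝ} {C : ℝ} (h : ∀ k, |u k| ≤ C) :
    ∑' k, qq ^ k * u k = u 0 + qq * ∑' k, qq ^ k * u (k + 1) := by
  rw [(summ h).tsum_eq_zero_add, ← tsum_mul_left]
  congr 1
  · simp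
  · refine tsum_congr fun k => ?_
    rw [pow_succ]; ring

theorem tsum_tail {u : ℕ → ℝ} {C : ℝ} (h : ∀ k, |u k| ≤ C) : |∑' k, qq ^ k * u k| ≤ C * (1 - qq)⁻¹ := by
  have hg := (hasSum_geometric_of_lt_one qq_pos.le qq_lt).mul_left C
  have := tsum_of_norm_bounded hg (f := fun k => qq ^ k * u k) (fun k => by
    rw [Real.norm_eq_abs, abs_mul, abs_of_nonneg (pow_nonneg qq_pos.le k), mul_comm]
    exact mul_le_mul_of_nonneg_right (h k) (pow_nonneg qq_pos.le k))
  simpa [Real.norm_eq_abs] using this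

/-- `∑ q^(2k) psi(F_(2k+1))`. -/
noncomputable def SO (s : St) : ℝ := ∑' k, qq ^ k * s (.O k)

/-- `∑ q^(2k) psi(F_(2k))`. -/
noncomputable def SE (s : St) : ℝ := ∑' k, qq ^ k * s (.E k)

/-- The eigenfunction of `a` with eigenvalue one. -/
noncomputable def MA (s : St) : ℝ := s .r - (1 + √2) / 2 * s (.E 0) + SO s + (1 + √2) * SE s

/-- The eigenfunction of `a` with eigenvalue minus one. -/
noncomputable def EA (s : St) : ℝ :=
  s (.G 0) + s .r / 2 + (√2 - 1) / 4 * s (.E 0) + qq / 2 * SO s - (√2 - 1) / 2 * SE s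

theorem SO_A {s : St} (h : Bdd s) :
    SO (A s) = (∑' k, qq ^ k * s (.E (k + 1)) - SE s) / 2 := by
  obtain ⟨C, hC⟩ := h
  unfold SO SE
  rw [← (summ (u := fun k => s (.E (k + 1))) (fun k => hC _)).tsum_sub
    (summ (u := fun k => s (.E k)) (fun k => hC _)), div_eq_mul_inv, ← tsum_mul_right]
  refine tsum_congr fun k => ?_
  simp only [A]; ring

theorem SE_A {s : St} (h : Bdd s) :
    SE (A s) = (s (.E 0) + s (.O 0)) + qq * ((∑' k, qq ^ k * s (.O (k + 1)) - SO s) / 2) := by
  have h' := h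
  obtain ⟨C, hC⟩ := h
  obtain ⟨D, hD⟩ := h'.A
  unfold SE
  rw [tsum_shift (u := fun k => A s (.E k)) (fun k => hD _)]
  unfold SO
  rw [← (summ (u := fun k => s (.O (k + 1))) (fun k => hC _)).tsum_sub
    (summ (u := fun k => s (.O k)) (fun k => hC _)), div_eq_mul_inv, ← tsum_mul_right]
  congr 2
  refine tsum_congr fun k => ?_
  simp only [A]; ring

theorem MA_A {s : St} (h : Bdd s) : MA (A s) = MA s := by
  have hS := s2
  have h1 := SO_A h
  have h2 := SE_A h
  obtain ⟨C, hC⟩ := h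
  have h3 : SO s = s (.O 0) + qq * ∑' k, qq ^ k * s (.O (k + 1)) :=
    tsum_shift (u := fun k => s (.O k)) (fun k => hC _)
  have h4 : SE s = s (.E 0) + qq * ∑' k, qq ^ k * s (.E (k + 1)) :=
    tsum_shift (u := fun k => s (.E k)) (fun k => hC _)
  unfold MA
  rw [h1, h2, h3, h4]
  set u := ∑' k, qq ^ k * s (.O (k + 1))
  set v := ∑' k, qq ^ k * s (.E (k + 1))
  simp only [A]
  unfold qq
  linear_combination (2 * v + s (.O 0) + (3 - 2 * √2) * u) * hS

theorem EA_A {s : St} (h : Bdd s) : EA (A s) = - EA s := by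
  have hS := s2
  have h1 := SO_A h
  have h2 := SE_A h
  obtain ⟨C, hC⟩ := h
  have h3 : SO s = s (.O 0) + qq * ∑' k, qq ^ k * s (.O (k + 1)) :=
    tsum_shift (u := fun k => s (.O k)) (fun k => hC _)
  have h4 : SE s = s (.E 0) + qq * ∑' k, qq ^ k * s (.E (k + 1)) :=
    tsum_shift (u := fun k => s (.E k)) (fun k => hC _)
  unfold EA
  rw [h1, h2, h3, h4]
  set u := ∑' k, qq ^ k * s (.O (k + 1))
  set v := ∑' k, qq ^ k * s (.E (k + 1))
  simp only [A]
  unfold qq
  linear_combination (-(1/2) * (s (.O 0) + (3 - 2 * √2) * u)) * hS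

end Pool.Agent.W521.E1
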