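import Mathlib
import Pool.Agent.W817.E1.Def
import Pool.Agent.W521.E1.Core
import Pool.Agent.W521.E1.Sum

set_option autoImplicit false

/-!
# Positivity of all word weights
-/

namespace Pool.Agent.W521.E1

open Pool.Agent.W817.E1

/-- The tail of a state beyond `F_4`. -/
structure Tail (s : St) (t : ℝ) : Prop where
  o : ∀ k, |s (.O (k + 2))| ≤ t
  e : ∀ k, |s (.E (k + 3))| ≤ t

theorem qinv : (1 - qq)⁻¹ = (1 + √2) / 2 := by
  have hS := s2
  have : (1 - qq) * ((1 + √2) / 2) = 1 := by unfold qq; linear_combination hS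
  exact inv_eq_of_mul_eq_one_right this

theorem linkO {s : St} {t : ℝ} (h : Bdd s) (ht : Tail s t) :
    |SO s - (s (.O 0) + (3 - 2 * √2) * s (.O 1))| ≤ (5 * √2 - 7) / 2 * t := by
  have hS := s2
  obtain ⟨C, hC⟩ := h
  have h1 : SO s = s (.O 0) + qq * (s (.O 1) + qq * ∑' k, qq ^ k * s (.O (k + 2))) := by
    unfold SO
    rw [tsum_shift (u := fun k => s (.O k)) (fun k => hC _),
      tsum_shift (u := fun k => s (.O (k + 1))) (fun k => hC _)]
  have h2 := tsum_tail (u := fun k => s (.O (k + 2))) ht.o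
  set v := ∑' k, qq ^ k * s (.O (k + 2))
  have h3 : SO s - (s (.O 0) + (3 - 2 * √2) * s (.O 1)) = qq ^ 2 * v := by
    rw [h1]; unfold qq; ring
  rw [h3, abs_mul, abs_of_nonneg (sq_nonneg _)]
  calc qq ^ 2 * |v| ≤ qq ^ 2 * (t * (1 - qq)⁻¹) := mul_le_mul_of_nonneg_left h2 (sq_nonneg _)
    _ = (5 * √2 - 7) / 2 * t := by
      rw [qinv]; unfold qq; linear_combination (2 * t * √2 - 4 * t) * hS

theorem linkE {s : St} {t : ℝ} (h : Bdd s) (ht : Tail s t) :
    |SE s - (s (.E 0) + (3 - 2 * √2) * s (.E 1) + (17 - 12 * √2) * s (.E 2))| ≤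
      (29 * √2 - 41) / 2 * t := by
  have hS := s2
  obtain ⟨C, hC⟩ := h
  have h1 : SE s = s (.E 0) + qq * (s (.E 1) + qq * (s (.E 2) + qq * ∑' k, qq ^ k * s (.E (k + 3)))) := by
    unfold SE
    rw [tsum_shift (u := fun k => s (.E k)) (fun k => hC _),
      tsum_shift (u := fun k => s (.E (k + 1))) (fun k => hC _),
      tsum_shift (u := fun k => s (.E (k + 2))) (fun k => hC _)]
  have h2 := tsum_tail (u := fun k => s (.E (k + 3))) ht.e
  set v := ∑' k, qq ^ k * s (.E (k + 3))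
  have h3 : SE s - (s (.E 0) + (3 - 2 * √2) * s (.E 1) + (17 - 12 * √2) * s (.E 2)) = qq ^ 3 * v := by
    rw [h1]; unfold qq; linear_combination (4 * s (.E 2)) * hS
  have h4 : 0 ≤ qq ^ 3 := pow_nonneg qq_pos.le 3
  rw [h3, abs_mul, abs_of_nonneg h4]
  calc qq ^ 3 * |v| ≤ qq ^ 3 * (t * (1 - qq)⁻¹) := mul_le_mul_of_nonneg_left h2 h4
    _ = (29 * √2 - 41) / 2 * t := by
      rw [qinv]; unfold qq
      linear_combination (t * (-4 * √2 ^ 2 + 14 * √2 - 17)) * hS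

theorem err {c x M : ℝ} (hc : |c| ≤ 1 / 10000000) (hx : |x| ≤ M) : |c * x| ≤ 1 / 10000000 * M := by
  rw [abs_mul]
  exact mul_le_mul hc hx (abs_nonneg _) (by norm_num)

/-- The rational form of the link between `MA` and the first coordinates. -/
theorem linkMA {s : St} {t M : ℝ} (h : Bdd s) (ht : Tail s t) (t0 : 0 ≤ t)
    (m0 : |s (.E 0)| ≤ M) (m1 : |s (.E 1)| ≤ M) (m2 : |s (.O 1)| ≤ M) (m3 : |s (.E 2)| ≤ M) :
    |(s .r + (3017767/2500000) * s (.E 0) + s (.O 0) + (517767/1250000) * s (.E 1)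
      + (1715729/10000000) * s (.O 1) + (355339/5000000) * s (.E 2)) - MA s| ≤
      (503/10000) * t + 4 / 10000000 * M := by
  have hS := s2
  have hl := s_lo
  have hu := s_hi
  have a1 := abs_le.1 (linkO h ht)
  have a2 := abs_le.1 (linkE h ht)
  have b0 := abs_le.1 (err (c := (1 + √2) / 2 - 3017767/2500000) (abs_le.2 ⟨by linarith, by linarith⟩) m0)
  have b1 := abs_le.1 (err (c := (√2 - 1) - 517767/1250000) (abs_le.2 ⟨by linarith, by linarith⟩) m1)
  have b2 := abs_le.1 (err (c := (3 - 2 * √2) - 1715729/10000000) (abs_le.2 ⟨by linarith, by linarith⟩) m2)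
  have b3 := abs_le.1 (err (c := (5 * √2 - 7) - 355339/5000000) (abs_le.2 ⟨by linarith, by linarith⟩) m3)
  set dO := SO s - (s (.O 0) + (3 - 2 * √2) * s (.O 1)) with hdO
  set dE := SE s - (s (.E 0) + (3 - 2 * √2) * s (.E 1) + (17 - 12 * √2) * s (.E 2)) with hdE
  have key : MA s = s .r + (1 + √2) / 2 * s (.E 0) + s (.O 0) + (√2 - 1) * s (.E 1)
      + (3 - 2 * √2) * s (.O 1) + (5 * √2 - 7) * s (.E 2) + dO + (1 + √2) * dE := by
    rw [hdO, hdE]; unfold MA
    linear_combination (-(2 * s (.E 1) + 12 * s (.E 2))) * hS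
  have c1 : |(1 + √2) * dE| ≤ (1 + √2) * ((29 * √2 - 41) / 2 * t) := by
    rw [abs_mul, abs_of_pos (by linarith : 0 < 1 + √2)]
    exact mul_le_mul_of_nonneg_left (abs_le.2 a2) (by linarith)
  have c2 : (1 + √2) * ((29 * √2 - 41) / 2 * t) = (17 - 12 * √2) / 2 * t := by
    linear_combination (29 / 2 * t) * hS
  rw [c2] at c1
  have c3 := abs_le.1 c1
  have c4 : (5 * √2 - 7) / 2 * t + (17 - 12 * √2) / 2 * t ≤ (503/10000) * t := by
    nlinarith
  rw [abs_le, key]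
  constructor <;> linarith [a1.1, a1.2, b0.1, b0.2, b1.1, b1.2, b2.1, b2.2, b3.1, b3.2, c3.1, c3.2]

/-- The rational form of the link between `EA` and the first coordinates. -/
theorem linkEA {s : St} {t M : ℝ} (h : Bdd s) (ht : Tail s t) (t0 : 0 ≤ t)
    (m0 : |s (.E 0)| ≤ M) (m1 : |s (.E 1)| ≤ M) (m2 : |s (.O 1)| ≤ M) (m3 : |s (.E 2)| ≤ M)
    (m4 : |s (.O 0)| ≤ M) :
    |(s (.G 0) + (1/2) * s .r + (-517767/5000000) * s (.E 0) + (107233/1250000) * s (.O 0)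
      + (-355339/10000000) * s (.E 1) + (73593/5000000) * s (.O 1)
      + (-60967/10000000) * s (.E 2)) - EA s| ≤
      (27/6250) * t + 5 / 10000000 * M := by
  have hS := s2
  have hl := s_lo
  have hu := s_hi
  have a1 := abs_le.1 (linkO h ht)
  have a2 := abs_le.1 (linkE h ht)
  have b0 := abs_le.1 (err (c := (1 - √2) / 4 + 517767/5000000) (abs_le.2 ⟨by linarith, by linarith⟩) m0)
  have b1 := abs_le.1 (err (c := (7 - 5 * √2) / 2 + 355339/10000000) (abs_le.2 ⟨by linarith, by linarith⟩) m1)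
  have b2 := abs_le.1 (err (c := (17 - 12 * √2) / 2 - 73593/5000000) (abs_le.2 ⟨by linarith, by linarith⟩) m2)
  have b3 := abs_le.1 (err (c := (41 - 29 * √2) / 2 + 60967/10000000) (abs_le.2 ⟨by linarith, by linarith⟩) m3)
  have b4 := abs_le.1 (err (c := (3 - 2 * √2) / 2 - 107233/1250000) (abs_le.2 ⟨by linarith, by linarith⟩) m4)
  set dO := SO s - (s (.O 0) + (3 - 2 * √2) * s (.O 1)) with hdO
  set dE := SE s - (s (.E 0) + (3 - 2 * √2) * s (.E 1) + (17 - 12 * √2) * s (.E 2)) with hdE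
  have key : EA s = s (.G 0) + (1/2) * s .r + (1 - √2) / 4 * s (.E 0) + (3 - 2 * √2) / 2 * s (.O 0)
      + (7 - 5 * √2) / 2 * s (.E 1)
      + (17 - 12 * √2) / 2 * s (.O 1) + (41 - 29 * √2) / 2 * s (.E 2)
      + (3 - 2 * √2) / 2 * dO - (√2 - 1) / 2 * dE := by
    rw [hdO, hdE]; unfold EA qq
    linear_combination (s (.E 1) + 2 * s (.O 1) + 6 * s (.E 2)) * hS
  have d1 : |(3 - 2 * √2) / 2 * dO| ≤ (3 - 2 * √2) / 2 * ((5 * √2 - 7) / 2 * t) := by
    rw [abs_mul, abs_of_pos (by linarith : 0 < (3 - 2 * √2) / 2)]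
    exact mul_le_mul_of_nonneg_left (abs_le.2 a1) (by linarith)
  have d2 : (3 - 2 * √2) / 2 * ((5 * √2 - 7) / 2 * t) = (29 * √2 - 41) / 4 * t := by
    linear_combination (-(10 / 4) * t) * hS
  have e1 : |(√2 - 1) / 2 * dE| ≤ (√2 - 1) / 2 * ((29 * √2 - 41) / 2 * t) := by
    rw [abs_mul, abs_of_pos (by linarith : 0 < (√2 - 1) / 2)]
    exact mul_le_mul_of_nonneg_left (abs_le.2 a2) (by linarith)
  have e2 : (√2 - 1) / 2 * ((29 * √2 - 41) / 2 * t) = (99 - 70 * √2) / 4 * t := by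
    linear_combination (29 / 4 * t) * hS
  rw [d2] at d1
  rw [e2] at e1
  have d3 := abs_le.1 d1
  have e3 := abs_le.1 e1
  have c4 : (29 * √2 - 41) / 4 * t + (99 - 70 * √2) / 4 * t ≤ (27/6250) * t := by
    nlinarith
  rw [abs_le, key]
  constructor <;> linarith [b0.1, b0.2, b1.1, b1.2, b2.1, b2.2, b3.1, b3.2, b4.1, b4.2, d3.1, d3.2, e3.1, e3.2]

/-- The invariant cone. -/
structure Good (s : St) : Prop where
  bdd : Bdd s
  f : Cond (s (.E 0)) (s (.O 0)) (s (.E 1)) (s (.O 1)) (s (.E 2)) (MA s) (MA (T s)) (EA s)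
  k : Cond (T s (.E 0)) (T s (.O 0)) (T s (.E 1)) (T s (.O 1)) (T s (.E 2)) (MA (T s)) (MA s) (EA (T s))
  a0 : 0 ≤ MA s
  b0 : 0 ≤ MA (T s)
  ta : Tail s (9 / 50 * MA s)
  tb : Tail s (9 / 50 * MA (T s))
  ga : Tail (T s) (9 / 50 * MA s)
  gb : Tail (T s) (9 / 50 * MA (T s))

theorem Good.T {s : St} (h : Good s) : Good (T s) := by
  refine ⟨h.bdd.T, ?_, ?_, h.b0, ?_, h.gb, ?_, ?_, ?_⟩
  · rw [T_T]; exact h.k
  · rw [T_T]; exact h.f
  · rw [T_T]; exact h.a0
  · rw [T_T]; exact h.ga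
  · rw [T_T]; exact h.tb
  · rw [T_T]; exact h.ta

theorem T_E1 (s : St) : W817.E1.T s (.E 1) = s (.E 1) := by simp [W817.E1.T]

theorem T_E2 (s : St) : W817.E1.T s (.E 2) = - s (.E 2) := by simp [W817.E1.T]

theorem T_O (s : St) (k : ℕ) : W817.E1.T s (.O k) = s (.G k) := rfl

theorem T_G (s : St) (k : ℕ) : W817.E1.T s (.G k) = s (.O k) := rfl

theorem T_E0 (s : St) : W817.E1.T s (.E 0) = 2 * s .r - s (.E 0) := rfl

theorem A_E1 (s : St) : A s (.E 1) = (s (.O 1) - s (.O 0)) / 2 := rfl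

theorem A_E2 (s : St) : A s (.E 2) = (s (.O 2) - s (.O 1)) / 2 := rfl

theorem A_G1 (s : St) : A s (.G 1) = s (.G 1) := by simp [A]

/-- The tail after a step. -/
theorem Tail.step {s : St} {u : ℝ} (h : Tail s u) (h2 : |s (.E 2)| ≤ u) : Tail (A s) u := by
  constructor
  · intro k
    have h1 : |s (.E (k + 3))| ≤ u := h.e k
    have h3 : |s (.E (k + 2))| ≤ u := by
      cases k with
      | zero => exact h2
      | succ k => exact h.e k
    have := abs_le.1 h1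
    have := abs_le.1 h3
    show |(s (.E (k + 3)) - s (.E (k + 2))) / 2| ≤ u
    rw [abs_le]
    constructor <;> linarith [(abs_le.1 h1).1, (abs_le.1 h1).2, (abs_le.1 h3).1, (abs_le.1 h3).2]
  · intro k
    have h1 : |s (.O (k + 3))| ≤ u := h.o (k + 1)
    have h3 : |s (.O (k + 2))| ≤ u := h.o k
    show |(s (.O (k + 3)) - s (.O (k + 2))) / 2| ≤ u
    rw [abs_le]
    constructor <;> linarith [(abs_le.1 h1).1, (abs_le.1 h1).2, (abs_le.1 h3).1, (abs_le.1 h3).2]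

/-- The mirrored tail after a step. -/
theorem Tail.stepT {s : St} {u : ℝ} (h : Tail s u) (g : Tail (W817.E1.T s) u) :
    Tail (W817.E1.T (A s)) u := by
  constructor
  · intro k
    have h1 : |s (.G (k + 2))| ≤ u := g.o k
    show |(-1) ^ (k + 1) * s (.G (k + 2))| ≤ u
    rw [abs_mul, abs_pow]
    simpa using h1
  · intro k
    have h1 : |s (.O (k + 3))| ≤ u := h.o (k + 1)
    have h3 : |s (.O (k + 2))| ≤ u := h.o k
    show |(-1) ^ (k + 2) * ((s (.O (k + 3)) - s (.O (k + 2))) / 2)| ≤ u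
    rw [abs_mul, abs_pow]
    simp only [abs_neg, abs_one, one_pow, one_mul]
    rw [abs_le]
    constructor <;> linarith [(abs_le.1 h1).1, (abs_le.1 h1).2, (abs_le.1 h3).1, (abs_le.1 h3).2]

theorem Tail.mono {s : St} {u v : ℝ} (h : Tail s u) (huv : u ≤ v) : Tail s v :=
  ⟨fun k => (h.o k).trans huv, fun k => (h.e k).trans huv⟩

theorem Tail.min {s : St} {u v : ℝ} (h : Tail s u) (g : Tail s v) : Tail s (min u v) :=
  ⟨fun k => le_min (h.o k) (g.o k), fun k => le_min (h.e k) (g.e k)⟩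

end Pool.Agent.W521.E1
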