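import Mathlib
import Pool.Agent.W817.E1.Def
import Pool.Agent.W521.E1.Core
import Pool.Agent.W521.E1.Sum
import Pool.Agent.W521.E1.Pos

set_option autoImplicit false

/-!
# Positivity of all word weights: the induction
-/

namespace Pool.Agent.W521.E1

open Pool.Agent.W817.E1

theorem mkHyp {r e0 o0 g0 e1 o1 g1 e2 o2 A B Ea Eb B2 Eb2 t : ℝ}
    (hf : Cond e0 o0 e1 o1 e2 A B Ea) (hk : Cond (2*r-e0) g0 e1 g1 (-e2) B A Eb)
    (l1 : |(r + (3017767/2500000) * e0 + o0 + (517767/1250000) * e1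
      + (1715729/10000000) * o1 + (355339/5000000) * e2) - A| ≤
      (503/10000) * t + 4 / 10000000 * (2 * (A + B)))
    (l2 : |(g0 + (1/2) * r + (-517767/5000000) * e0 + (107233/1250000) * o0
      + (-355339/10000000) * e1 + (73593/5000000) * o1
      + (-60967/10000000) * e2) - Ea| ≤ (27/6250) * t + 5 / 10000000 * (2 * (A + B)))
    (l3 : |(r + (3017767/2500000) * (2*r-e0) + g0 + (517767/1250000) * e1
      + (1715729/10000000) * g1 + (355339/5000000) * (-e2)) - B| ≤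
      (503/10000) * t + 4 / 10000000 * (2 * (A + B)))
    (l4 : |(o0 + (1/2) * r + (-517767/5000000) * (2*r-e0) + (107233/1250000) * g0
      + (-355339/10000000) * e1 + (73593/5000000) * g1
      + (-60967/10000000) * (-e2)) - Eb| ≤ (27/6250) * t + 5 / 10000000 * (2 * (A + B)))
    (l5 : |((r + e0/2) + (3017767/2500000) * (2*(r+e0/2)-(e0+o0)) + (-g0-r) + (517767/1250000) * ((o1-o0)/2)
      + (1715729/10000000) * g1 + (355339/5000000) * (-((o2-o1)/2))) - B2| ≤
      (503/10000) * t + 4 / 10000000 * (2 * (A + B)))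
    (l6 : |(((e1-e0)/2) + (1/2) * (r+e0/2) + (-517767/5000000) * (2*(r+e0/2)-(e0+o0))
      + (107233/1250000) * (-g0-r)
      + (-355339/10000000) * ((o1-o0)/2) + (73593/5000000) * g1
      + (-60967/10000000) * (-((o2-o1)/2))) - Eb2| ≤ (27/6250) * t + 5 / 10000000 * (2 * (A + B)))
    (ho : |o2| ≤ t) (ta : t ≤ 9/50 * A) (tb : t ≤ 9/50 * B) (a0 : 0 ≤ A) (b0 : 0 ≤ B) (t0 : 0 ≤ t) :
    Hyp r e0 o0 g0 e1 o1 g1 e2 o2 A B Ea Eb B2 Eb2 t where
  f := hf
  k := hk
  la1 := by linarith only [(abs_le.1 l1).2, a0, b0]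
  la2 := by linarith only [(abs_le.1 l1).1, a0, b0]
  lb1 := by linarith only [(abs_le.1 l3).2, a0, b0]
  lb2 := by linarith only [(abs_le.1 l3).1, a0, b0]
  le1 := by linarith only [(abs_le.1 l2).2, a0, b0]
  le2 := by linarith only [(abs_le.1 l2).1, a0, b0]
  lf1 := by linarith only [(abs_le.1 l4).2, a0, b0]
  lf2 := by linarith only [(abs_le.1 l4).1, a0, b0]
  lc1 := by linarith only [(abs_le.1 l5).2, a0, b0]
  lc2 := by linarith only [(abs_le.1 l5).1, a0, b0]
  ld1 := by linarith only [(abs_le.1 l6).2, a0, b0]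
  ld2 := by linarith only [(abs_le.1 l6).1, a0, b0]
  ho1 := (abs_le.1 ho).2
  ho2 := by linarith only [(abs_le.1 ho).1]
  ta := ta
  tb := tb
  a0 := a0
  b0 := b0
  t0 := t0

theorem Good.hyp {s : St} (h : Good s) :
    Hyp (s .r) (s (.E 0)) (s (.O 0)) (s (.G 0)) (s (.E 1)) (s (.O 1)) (s (.G 1)) (s (.E 2)) (s (.O 2))
      (MA s) (MA (W817.E1.T s)) (EA s) (EA (W817.E1.T s)) (MA (W817.E1.T (A s)))
      (EA (W817.E1.T (A s))) (min (9 / 50 * MA s) (9 / 50 * MA (W817.E1.T s))) := by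
  have hf := h.f
  have hk := h.k
  rw [T_E0, T_O, T_E1, T_O, T_E2] at hk
  have a0 := h.a0
  have b0 := h.b0
  have u1 : Tail s (min (9 / 50 * MA s) (9 / 50 * MA (W817.E1.T s))) := h.ta.min h.tb
  have u2 : Tail (W817.E1.T s) (min (9 / 50 * MA s) (9 / 50 * MA (W817.E1.T s))) := h.ga.min h.gb
  have u3 := u1.stepT u2
  have t0 : 0 ≤ min (9 / 50 * MA s) (9 / 50 * MA (W817.E1.T s)) :=
    le_min (by positivity) (by positivity)
  have tA : min (9 / 50 * MA s) (9 / 50 * MA (W817.E1.T s)) ≤ 9 / 50 * MA s := min_le_left _ _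
  have tB : min (9 / 50 * MA s) (9 / 50 * MA (W817.E1.T s)) ≤ 9 / 50 * MA (W817.E1.T s) := min_le_right _ _
  have o2 := abs_le.1 (u1.o 0)
  have l1 := linkMA h.bdd u1 t0 (M := 2 * (MA s + MA (W817.E1.T s)))
    (abs_le.2 ⟨by linarith [hf.h24], by linarith [hf.h23]⟩)
    (abs_le.2 ⟨by linarith [hf.h9], by linarith [hf.h25]⟩)
    (abs_le.2 ⟨by linarith [hf.h12], by linarith [hf.h11]⟩)
    (abs_le.2 ⟨by linarith [hf.h20], by linarith [hf.h19]⟩)
  have l2 := linkEA h.bdd u1 t0 (M := 2 * (MA s + MA (W817.E1.T s)))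
    (abs_le.2 ⟨by linarith [hf.h24], by linarith [hf.h23]⟩)
    (abs_le.2 ⟨by linarith [hf.h9], by linarith [hf.h25]⟩)
    (abs_le.2 ⟨by linarith [hf.h12], by linarith [hf.h11]⟩)
    (abs_le.2 ⟨by linarith [hf.h20], by linarith [hf.h19]⟩)
    (abs_le.2 ⟨by linarith [hf.h2], by linarith [hf.h1]⟩)
  have l3 := linkMA h.bdd.T u2 t0 (M := 2 * (MA s + MA (W817.E1.T s)))
    (by rw [T_E0]; exact abs_le.2 ⟨by linarith [hk.h24], by linarith [hk.h23]⟩)
    (by rw [T_E1]; exact abs_le.2 ⟨by linarith [hk.h9], by linarith [hk.h25]⟩)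
    (by rw [T_O]; exact abs_le.2 ⟨by linarith [hk.h12], by linarith [hk.h11]⟩)
    (by rw [T_E2]; exact abs_le.2 ⟨by linarith [hk.h20], by linarith [hk.h19]⟩)
  have l4 := linkEA h.bdd.T u2 t0 (M := 2 * (MA s + MA (W817.E1.T s)))
    (by rw [T_E0]; exact abs_le.2 ⟨by linarith [hk.h24], by linarith [hk.h23]⟩)
    (by rw [T_E1]; exact abs_le.2 ⟨by linarith [hk.h9], by linarith [hk.h25]⟩)
    (by rw [T_O]; exact abs_le.2 ⟨by linarith [hk.h12], by linarith [hk.h11]⟩)
    (by rw [T_E2]; exact abs_le.2 ⟨by linarith [hk.h20], by linarith [hk.h19]⟩)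
    (by rw [T_O]; exact abs_le.2 ⟨by linarith [hk.h2], by linarith [hk.h1]⟩)
  have e0 : W817.E1.T (A s) (.E 0) = 2 * (s .r + s (.E 0) / 2) - (s (.E 0) + s (.O 0)) := rfl
  have e1 : W817.E1.T (A s) (.E 1) = (s (.O 1) - s (.O 0)) / 2 := by rw [T_E1, A_E1]
  have e2 : W817.E1.T (A s) (.E 2) = -((s (.O 2) - s (.O 1)) / 2) := by rw [T_E2, A_E2]
  have e3 : W817.E1.T (A s) (.O 0) = - s (.G 0) - s .r := rfl
  have e4 : W817.E1.T (A s) (.O 1) = s (.G 1) := by rw [T_O, A_G1]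
  have e5 : W817.E1.T (A s) (.G 0) = (s (.E 1) - s (.E 0)) / 2 := rfl
  have e6 : W817.E1.T (A s) .r = s .r + s (.E 0) / 2 := rfl
  have l5 := linkMA h.bdd.A.T u3 t0 (M := 2 * (MA s + MA (W817.E1.T s)))
    (by rw [e0]; exact abs_le.2 ⟨by linarith [hk.h24, hk.h23, hf.h24, hf.h23, hf.h1, hf.h2],
      by linarith [hk.h24, hk.h23, hf.h24, hf.h23, hf.h1, hf.h2]⟩)
    (by rw [e1]; exact abs_le.2 ⟨by linarith [hf.h12, hf.h11, hf.h1, hf.h2],
      by linarith [hf.h12, hf.h11, hf.h1, hf.h2]⟩)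
    (by rw [e4]; exact abs_le.2 ⟨by linarith [hk.h12], by linarith [hk.h11]⟩)
    (by rw [e2]; exact abs_le.2 ⟨by linarith [hf.h12, hf.h11, o2.1, o2.2],
      by linarith [hf.h12, hf.h11, o2.1, o2.2]⟩)
  have l6 := linkEA h.bdd.A.T u3 t0 (M := 2 * (MA s + MA (W817.E1.T s)))
    (by rw [e0]; exact abs_le.2 ⟨by linarith [hk.h24, hk.h23, hf.h24, hf.h23, hf.h1, hf.h2],
      by linarith [hk.h24, hk.h23, hf.h24, hf.h23, hf.h1, hf.h2]⟩)
    (by rw [e1]; exact abs_le.2 ⟨by linarith [hf.h12, hf.h11, hf.h1, hf.h2],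
      by linarith [hf.h12, hf.h11, hf.h1, hf.h2]⟩)
    (by rw [e4]; exact abs_le.2 ⟨by linarith [hk.h12], by linarith [hk.h11]⟩)
    (by rw [e2]; exact abs_le.2 ⟨by linarith [hf.h12, hf.h11, o2.1, o2.2],
      by linarith [hf.h12, hf.h11, o2.1, o2.2]⟩)
    (by rw [e3]; exact abs_le.2 ⟨by linarith [hk.h24, hk.h23, hf.h24, hf.h23, hk.h1, hk.h2],
      by linarith [hk.h24, hk.h23, hf.h24, hf.h23, hk.h1, hk.h2]⟩)
  rw [T_E0, T_E1, T_E2, T_O, T_O] at l3 l4
  rw [T_G] at l4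
  rw [e0, e1, e2, e3, e4, e6] at l5 l6
  rw [e5] at l6
  exact mkHyp hf hk l1 l2 l3 l4 l5 l6 (u1.o 0) tA tB a0 b0 t0

theorem Good.A {s : St} (h : Good s) : Good (W817.E1.A s) := by
  have H := h.hyp
  have hB := aux_B2 H
  have a0 := h.a0
  have b0 := h.b0
  have t1 : Tail (W817.E1.A s) (9 / 50 * MA s) := h.ta.step
    (abs_le.2 ⟨by linarith [h.f.h20], by linarith [h.f.h19]⟩)
  have t2 : Tail (W817.E1.T (W817.E1.A s)) (9 / 50 * MA s) := h.ta.stepT h.ga
  refine ⟨h.bdd.A, ?_, ?_, ?_, ?_, ?_, ?_, ?_, ?_⟩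
  · rw [MA_A h.bdd, EA_A h.bdd, A_E1, A_E2]
    exact cond_F H
  · rw [MA_A h.bdd, T_E0, T_O, T_E1, T_O, T_E2, A_E1, A_E2, A_G1]
    exact cond_K H
  · rw [MA_A h.bdd]; exact a0
  · linarith
  · rw [MA_A h.bdd]; exact t1
  · exact t1.mono (by linarith)
  · rw [MA_A h.bdd]; exact t2
  · exact t2.mono (by linarith)

theorem T_vac : W817.E1.T vac = vac := by
  funext i
  rcases i with _ | k | k | k
  · rfl
  · rcases k with _ | _ | k
    · simp only [W817.E1.T, vac]; norm_num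
    · simp only [W817.E1.T, vac]; norm_num
    · simp only [W817.E1.T, vac]; norm_num
  · rcases k with _ | _ | k <;> rfl
  · rcases k with _ | _ | k <;> rfl

theorem vac_bdd : Bdd vac := by
  refine ⟨36, fun i => ?_⟩
  rcases i with _ | k | k | k
  · simp only [vac]; norm_num
  · rcases k with _ | _ | k <;> (simp only [vac]; norm_num)
  · rcases k with _ | _ | k <;> (simp only [vac]; norm_num)
  · rcases k with _ | _ | k <;> (simp only [vac]; norm_num)

theorem vac_tail : Tail vac 0 := by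
  constructor
  · intro k
    show |(0 : ℝ)| ≤ 0
    simp
  · intro k
    show |(0 : ℝ)| ≤ 0
    simp

theorem SO_vac : SO vac = -13 - qq := by
  have h := linkO vac_bdd vac_tail
  simp only [mul_zero, abs_nonpos_iff] at h
  have e0 : vac (.O 0) = -13 := rfl
  have e1 : vac (.O 1) = -1 := rfl
  rw [e0, e1] at h
  unfold qq; linarith

theorem SE_vac : SE vac = 36 + 4 * qq := by
  have h := linkE vac_bdd vac_tail
  simp only [mul_zero, abs_nonpos_iff] at h
  have e0 : vac (.E 0) = 36 := rfl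
  have e1 : vac (.E 1) = 4 := rfl
  have e2 : vac (.E 2) = 0 := rfl
  rw [e0, e1, e2] at h
  unfold qq; linarith

theorem MA_vac : MA vac = 34 + 24 * √2 := by
  unfold MA
  rw [SO_vac, SE_vac]
  have e0 : vac (.E 0) = 36 := rfl
  have e1 : vac .r = 36 := rfl
  rw [e0, e1]
  unfold qq
  linear_combination (-8 : ℝ) * s2

theorem EA_vac : EA vac = 0 := by
  unfold EA
  rw [SO_vac, SE_vac]
  have e0 : vac (.E 0) = 36 := rfl
  have e1 : vac .r = 36 := rfl
  have e2 : vac (.G 0) = -13 := rfl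
  rw [e0, e1, e2]
  unfold qq
  linear_combination (2 : ℝ) * s2

theorem good_vac : Good vac := by
  have hl := s_lo
  have hu := s_hi
  have hc : Cond (vac (.E 0)) (vac (.O 0)) (vac (.E 1)) (vac (.O 1)) (vac (.E 2)) (MA vac) (MA vac)
      (EA vac) := by
    rw [MA_vac, EA_vac]
    have e0 : vac (.E 0) = 36 := rfl
    have e1 : vac (.E 1) = 4 := rfl
    have e2 : vac (.E 2) = 0 := rfl
    have e3 : vac (.O 0) = -13 := rfl
    have e4 : vac (.O 1) = -1 := rfl
    rw [e0, e1, e2, e3, e4]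
    constructor <;> linarith
  have a0 : 0 ≤ MA vac := by rw [MA_vac]; linarith
  have ht : Tail vac (9 / 50 * MA vac) := vac_tail.mono (by linarith)
  refine ⟨vac_bdd, ?_, ?_, a0, ?_, ht, ?_, ?_, ?_⟩ <;> rw [T_vac]
  · exact hc
  · exact hc
  · exact a0
  · exact ht
  · exact ht
  · exact ht

theorem good_run (w : List Bool) : ∀ s : St, Good s → Good (run s w) := by
  induction w with
  | nil => intro s h; exact h
  | cons c w ih =>
    intro s h
    have : Good (step s c) := by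
      unfold step
      split_ifs
      · exact h.T.A
      · exact h.A.T
    exact ih _ this

/-- All word weights of the second law are nonnegative. -/
theorem positive : Positive := fun w => aux_r (good_run w vac good_vac).hyp

end Pool.Agent.W521.E1
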